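import Pool.Agent.Y142.SV.Stm
import Pool.Agent.Y217.SU.Lieu

/-!
Task LIEV of project Y142-SV: descent from the algebraic closure (adaptation of the module
Pool.Agent.Y217.SU.Lieu of helper217)
-/

set_option autoImplicit false

open Matrix Polynomial
open Pool.Agent.Y142.ZS (Sim Generic)
open Pool.Agent.Y142.SV
open Pool.Agent.Y217.SU

namespace Pool.Agent.Y641.SV

section base
variable {F : Type} [Field F] {K : Type} [Field K] [Algebra F K] {N : ℕ}

theorem selfadj_up {J : Matrix (Fin N) (Fin N) F} {C : Subalgebra F (Matrix (Fin N) (Fin N) F)}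
    (h : Selfadj J C) : Selfadj (up K J) (upa K C) := by
  obtain ⟨h1, h2, h3, h4⟩ := h
  refine ⟨?_, ?_, ?_, ?_⟩
  · rcases h1 with h1 | h1
    · left; rw [← up_transpose, h1]
    · right; rw [← up_transpose, h1, up_neg]
  · rw [up_det]
    exact (_root_.map_ne_zero _).mpr h2
  · intro A hA B hB
    refine upa_ind (fun A => A * B = B * A) ?_ ?_ ?_ ?_ hA
    · intro A hA
      refine upa_ind (fun B => up K A * B = B * up K A) ?_ ?_ ?_ ?_ hB
      · intro B hB
        rw [← up_mul, ← up_mul, h3 A hA B hB]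
      · simp
      · intro X Y hX hY
        rw [mul_add, add_mul, hX, hY]
      · intro w X hX
        rw [mul_smul_comm, smul_mul_assoc, hX]
    · simp
    · intro X Y hX hY
      rw [mul_add, add_mul, hX, hY]
    · intro w X hX
      rw [mul_smul_comm, smul_mul_assoc, hX]
  · intro A hA
    refine upa_ind (fun A => Aᵀ * up K J = up K J * A) ?_ ?_ ?_ ?_ hA
    · intro A hA
      rw [← up_transpose, ← up_mul, ← up_mul, h4 A hA]
    · simp
    · intro X Y hX hY
      rw [transpose_add, add_mul, mul_add, hX, hY]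
    · intro w X hX
      rw [transpose_smul, smul_mul_assoc, mul_smul_comm, hX]

theorem liev_up {J : Matrix (Fin N) (Fin N) F} {C : Subalgebra F (Matrix (Fin N) (Fin N) F)}
    {X : Matrix (Fin N) (Fin N) F} (h : LieV J C X) : LieV (up K J) (upa K C) (up K X) := by
  obtain ⟨h1, h2⟩ := h
  refine ⟨?_, ?_⟩
  · intro A hA
    refine upa_ind (fun A => up K X * A = A * up K X) ?_ ?_ ?_ ?_ hA
    · intro A hA
      rw [← up_mul, ← up_mul, h1 A hA]
    · simp
    · intro A B hA hB
      rw [mul_add, add_mul, hA, hB]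
    · intro w A hA
      rw [mul_smul_comm, smul_mul_assoc, hA]
  · rw [← up_transpose, ← up_mul, ← up_mul, ← up_add, h2, up_zero]

end base

theorem liev (h : S_ROOTV) (F : Type) [Field F] [CharZero F] (N : ℕ)
    (J g : Matrix (Fin N) (Fin N) F) (c : F) (L : Submodule F (Matrix (Fin N) (Fin N) F))
    (C : Subalgebra F (Matrix (Fin N) (Fin N) F))
    (hH : Selfadj J C) (hc : c ≠ 0) (hS : Sim J g c) (hsep : g.charpoly.Separable)
    (hgen : Generic g.charpoly c)
    (h1 : ∀ Z ∈ L, ∃ μ : F, Zᵀ * J + J * Z = μ • J) (h2 : ∀ X ∈ L, ∀ Y ∈ L, X * Y - Y * X ∈ L)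
    (h3 : ∀ Z ∈ L, g * Z * g⁻¹ ∈ L)
    (h4 : ∀ A ∈ C, A * g = g * A) (h5 : ∀ A ∈ C, ∀ Z ∈ L, A * Z = Z * A)
    (h6 : ∀ X, (∀ A ∈ C, X * A = A * X) →
      X ∈ Algebra.adjoin F (L : Set (Matrix (Fin N) (Fin N) F)))
    (X : Matrix (Fin N) (Fin N) F) (hX : LieV J C X) : X ∈ L := by
  set K := AlgebraicClosure F with hK
  have : CharZero K := charZero_of_injective_algebraMap (algebraMap F K).injective
  have hgdet : g.det ≠ 0 := by
    intro h0
    have e := congrArg Matrix.det hS
    rw [det_mul, det_mul, h0, mul_zero, det_smul] at e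
    exact (mul_ne_zero (pow_ne_zero _ hc) hH.2.1) e.symm
  have hcp : (up K g).charpoly = g.charpoly.map (algebraMap F K) := by
    rw [up_eq, RingHom.mapMatrix_apply, Matrix.charpoly_map]
  apply mem_of_up_mem (K := K)
  refine h K N (up K J) (up K g) (algebraMap F K c) (ups K L) (upa K C) (selfadj_up hH)
    ((_root_.map_ne_zero _).mpr hc) ?_ (IsAlgClosed.splits _) ?_ ?_ ?_ ?_ ?_ ?_ ?_ ?_ _ (liev_up hX)
  · unfold Sim
    rw [← up_transpose, ← up_mul, ← up_mul, hS, up_smul]
  · rw [hcp]
    exact hsep.map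
  · intro x y z w hx hy hz hw hxy he
    rw [hcp, IsRoot.def, eval_map_algebraMap] at hx hy hz hw
    exact hgen x y z w hx hy hz hw hxy he
  · intro Z hZ
    refine ups_ind (fun Z => ∃ μ : K, Zᵀ * up K J + up K J * Z = μ • up K J) ?_ ?_ ?_ ?_ hZ
    · intro Z hZ
      obtain ⟨m, hm⟩ := h1 Z hZ
      exact ⟨algebraMap F K m, by rw [← up_transpose, ← up_mul, ← up_mul, ← up_add, hm, up_smul]⟩
    · exact ⟨0, by simp⟩
    · rintro A B ⟨a, ha⟩ ⟨b, hb⟩
      refine ⟨a + b, ?_⟩
      rw [transpose_add, add_mul, mul_add, add_smul, ← ha, ← hb]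
      abel
    · rintro w A ⟨a, ha⟩
      refine ⟨w * a, ?_⟩
      rw [transpose_smul, smul_mul_assoc, mul_smul_comm, mul_smul, ← ha, smul_add]
  · intro A hA B hB
    refine ups_ind (fun A => A * B - B * A ∈ ups K L) ?_ ?_ ?_ ?_ hA
    · intro A hA
      refine ups_ind (fun B => up K A * B - B * up K A ∈ ups K L) ?_ ?_ ?_ ?_ hB
      · intro B hB
        rw [← up_mul, ← up_mul, ← up_sub]
        exact up_mem (h2 A hA B hB)
      · simp
      · intro X Y hX hY
        have e : up K A * (X + Y) - (X + Y) * up K A =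
            (up K A * X - X * up K A) + (up K A * Y - Y * up K A) := by
          rw [mul_add, add_mul]; abel
        rw [e]
        exact add_mem hX hY
      · intro w X hX
        rw [mul_smul_comm, smul_mul_assoc, ← smul_sub]
        exact Submodule.smul_mem _ _ hX
    · simp
    · intro X Y hX hY
      have e : (X + Y) * B - B * (X + Y) = (X * B - B * X) + (Y * B - B * Y) := by
        rw [mul_add, add_mul]; abel
      rw [e]
      exact add_mem hX hY
    · intro w X hX
      rw [mul_smul_comm, smul_mul_assoc, ← smul_sub]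
      exact Submodule.smul_mem _ _ hX
  · intro Z hZ
    refine ups_ind (fun Z => up K g * Z * (up K g)⁻¹ ∈ ups K L) ?_ ?_ ?_ ?_ hZ
    · intro Z hZ
      rw [← up_inv _ hgdet, ← up_mul, ← up_mul]
      exact up_mem (h3 Z hZ)
    · simp
    · intro X Y hX hY
      rw [mul_add, add_mul]
      exact add_mem hX hY
    · intro w X hX
      rw [mul_smul_comm, smul_mul_assoc]
      exact Submodule.smul_mem _ _ hX
  · intro A hA
    refine upa_ind (fun A => A * up K g = up K g * A) ?_ ?_ ?_ ?_ hA
    · intro A hA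
      rw [← up_mul, ← up_mul, h4 A hA]
    · simp
    · intro X Y hX hY
      rw [mul_add, add_mul, hX, hY]
    · intro w X hX
      rw [mul_smul_comm, smul_mul_assoc, hX]
  · intro A hA Z hZ
    refine upa_ind (fun A => A * Z = Z * A) ?_ ?_ ?_ ?_ hA
    · intro A hA
      refine ups_ind (fun Z => up K A * Z = Z * up K A) ?_ ?_ ?_ ?_ hZ
      · intro Z hZ
        rw [← up_mul, ← up_mul, h5 A hA Z hZ]
      · simp
      · intro X Y hX hY
        rw [mul_add, add_mul, hX, hY]
      · intro w X hX
        rw [mul_smul_comm, smul_mul_assoc, hX]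
    · simp
    · intro X Y hX hY
      rw [mul_add, add_mul, hX, hY]
    · intro w X hX
      rw [mul_smul_comm, smul_mul_assoc, hX]
  · intro Y hY
    have hlam : ∀ lam : K →ₗ[F] F, dn lam Y ∈
        Subalgebra.toSubmodule (Algebra.adjoin F (L : Set (Matrix (Fin N) (Fin N) F))) := by
      intro lam
      rw [Subalgebra.mem_toSubmodule]
      apply h6
      intro A hA
      rw [← dn_mul_up, ← dn_up_mul, hY _ (up_mema hA)]
    have hmem := mem_ups_of_dn hlam
    have hsub : ∀ B ∈ Algebra.adjoin F (L : Set (Matrix (Fin N) (Fin N) F)),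
        up K B ∈ Algebra.adjoin K ((ups K L : Submodule K _) : Set (Matrix (Fin N) (Fin N) K)) := by
      intro B hB
      refine Algebra.adjoin_induction (p := fun B _ => up K B ∈
        Algebra.adjoin K ((ups K L : Submodule K _) : Set (Matrix (Fin N) (Fin N) K)))
        ?_ ?_ ?_ ?_ hB
      · intro B hB
        exact Algebra.subset_adjoin (up_mem hB)
      · intro r
        rw [Algebra.algebraMap_eq_smul_one, up_smul, up_one]
        exact Subalgebra.smul_mem _ (one_mem _) _
      · intro A B _ _ hA hB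
        rw [up_add]
        exact add_mem hA hB
      · intro A B _ _ hA hB
        rw [up_mul]
        exact mul_mem hA hB
    refine ups_ind (fun M => M ∈ Algebra.adjoin K ((ups K L : Submodule K _) :
      Set (Matrix (Fin N) (Fin N) K))) ?_ (zero_mem _) (fun A B hA hB => add_mem hA hB)
      (fun w A hA => Subalgebra.smul_mem _ hA w) hmem
    intro B hB
    exact hsub B hB

theorem t (h : S_ROOTV) : S_LIEV := by
  intro l _ N J g c L C hH hc hS hsep hgen h1 h2 h3 h4 h5 h6 X hX
  exact liev h ℚ_[l] N J g c L C hH hc hS hsep hgen h1 h2 h3 h4 h5 h6 X hX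

end Pool.Agent.Y641.SV
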